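import Pool.Agent.N541.LV.Stm

/-!
# LV/GCD: gcd and congruence lemmas (helper374)
-/

set_option autoImplicit false

namespace Pool.Agent.N374.LVGCD

open Finset Pool.Agent.N541.LV

lemma ev_add {d : ℕ} (a b : Fin d → ℤ) (z : ℤ) : ev (a + b) z = ev a z + ev b z := by
  simp [ev, add_mul, Finset.sum_add_distrib]

lemma ev_smul {d : ℕ} (n : ℤ) (a : Fin d → ℤ) (z : ℤ) : ev (n • a) z = n * ev a z := by
  simp only [ev, Pi.smul_apply, smul_eq_mul, Finset.mul_sum]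
  exact Finset.sum_congr rfl fun l _ => by ring

theorem gcd_main : GCDStm := by
  intro d A M z hM
  classical
  induction A using Finset.induction_on with
  | empty =>
    refine ⟨M.natAbs, Int.natAbs_pos.2 hM, Int.natAbs_dvd.2 dvd_rfl, by simp, 0,
      AddSubgroup.zero_mem _, ?_⟩
    have : ev (0 : Fin d → ℤ) z = 0 := by simp [ev]
    rw [this, zero_sub, dvd_neg]
    exact Int.dvd_natAbs.2 dvd_rfl
  | insert Q1 A _ ih =>
    obtain ⟨g, hg0, hgM, hgA, Q, hQ, hQM⟩ := ih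
    have hbez := Int.gcd_eq_gcd_ab (g : ℤ) (ev Q1 z)
    have hd1 : ((Int.gcd (g : ℤ) (ev Q1 z) : ℕ) : ℤ) ∣ (g : ℤ) := Int.gcd_dvd_left _ _
    have hd2 : ((Int.gcd (g : ℤ) (ev Q1 z) : ℕ) : ℤ) ∣ ev Q1 z := Int.gcd_dvd_right _ _
    refine ⟨Int.gcd (g : ℤ) (ev Q1 z), ?_, hd1.trans hgM, ?_,
      Int.gcdA (g : ℤ) (ev Q1 z) • Q + Int.gcdB (g : ℤ) (ev Q1 z) • Q1, ?_, ?_⟩
    · exact Int.gcd_pos_of_ne_zero_left _ (by exact_mod_cast hg0.ne')
    · intro P hP
      rcases Finset.mem_insert.1 hP with rfl | hP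
      · exact hd2
      · exact hd1.trans (hgA P hP)
    · refine AddSubgroup.add_mem _ (AddSubgroup.zsmul_mem _ ?_ _) (AddSubgroup.zsmul_mem _ ?_ _)
      · exact AddSubgroup.closure_mono (by
          intro x hx
          exact Finset.mem_coe.2 (Finset.mem_insert_of_mem (Finset.mem_coe.1 hx))) hQ
      · exact AddSubgroup.subset_closure (Finset.mem_coe.2 (Finset.mem_insert_self _ _))
    · rw [ev_add, ev_smul, ev_smul, hbez]
      have e : Int.gcdA (g : ℤ) (ev Q1 z) * ev Q z + Int.gcdB (g : ℤ) (ev Q1 z) * ev Q1 z -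
          ((g : ℤ) * Int.gcdA (g : ℤ) (ev Q1 z) + ev Q1 z * Int.gcdB (g : ℤ) (ev Q1 z)) =
          Int.gcdA (g : ℤ) (ev Q1 z) * (ev Q z - g) := by ring
      rw [e]
      exact Dvd.dvd.mul_left hQM _

theorem cong_main : CONGStm := by
  intro d Q a b
  have e : ev Q a - ev Q b = ∑ l, Q l * (a ^ (l : ℕ) - b ^ (l : ℕ)) := by
    simp only [ev, mul_sub, Finset.sum_sub_distrib]
  rw [e]
  exact Finset.dvd_sum fun l _ => Dvd.dvd.mul_left (sub_dvd_pow_sub_pow a b _) _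

end Pool.Agent.N374.LVGCD
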