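import Pool.Agent.N541.LV.StmB

/-!
# LV/POL: polynomial of low degree with small coefficients (helper374)
-/

set_option autoImplicit false

namespace Pool.Agent.N374.LVPOL

open Finset Polynomial Pool.Agent.N541.LV

/-- coefficients of `∏ (X - x_i)` -/
lemma coef_bd : ∀ (n N : ℕ), 1 ≤ N → ∀ (x : Fin n → ℕ), (∀ i, x i ≤ N) → ∀ l : ℕ,
    |(∏ i, (X - C (x i : ℤ)) : ℤ[X]).coeff l| ≤ if l ≤ n then 2 ^ n * (N : ℤ) ^ (n - l) else 0 := by
  intro n
  induction n with
  | zero =>
    intro N hN x hx l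
    rcases Nat.eq_zero_or_pos l with h | h
    · subst h
      simp
    · have : ¬ l ≤ 0 := by omega
      rw [if_neg this]
      simp only [Finset.univ_eq_empty, Finset.prod_empty]
      rw [coeff_one, if_neg (by omega)]
      simp
  | succ n ih =>
    intro N hN x hx l
    rw [Fin.prod_univ_succ]
    set G : ℤ[X] := ∏ i : Fin n, (X - C (x i.succ : ℤ)) with hG
    have hN' : (1 : ℤ) ≤ N := by exact_mod_cast hN
    have hG' : ∀ l, |G.coeff l| ≤ if l ≤ n then 2 ^ n * (N : ℤ) ^ (n - l) else 0 :=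
      ih N hN (fun i => x i.succ) fun i => hx _
    have hx0 : |(x 0 : ℤ)| ≤ N := by
      rw [abs_of_nonneg (by positivity)]
      exact_mod_cast hx 0
    rw [sub_mul, coeff_sub, coeff_C_mul]
    rcases Nat.eq_zero_or_pos l with h | h
    · subst h
      rw [coeff_X_mul_zero, zero_sub, abs_neg, abs_mul, if_pos (Nat.zero_le _)]
      have h1 := hG' 0
      rw [if_pos (Nat.zero_le _)] at h1
      calc |(x 0 : ℤ)| * |G.coeff 0| ≤ N * (2 ^ n * (N : ℤ) ^ (n - 0)) := by gcongr
        _ = 2 ^ n * (N : ℤ) ^ (n + 1 - 0) := by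
            rw [Nat.sub_zero, Nat.sub_zero, pow_succ]
            ring
        _ ≤ 2 ^ (n + 1) * (N : ℤ) ^ (n + 1 - 0) := by
            gcongr
            · norm_num
            · omega
    · obtain ⟨l, rfl⟩ : ∃ k, l = k + 1 := ⟨l - 1, by omega⟩
      rw [coeff_X_mul]
      have h1 := hG' l
      have h2 := hG' (l + 1)
      have h3 : |G.coeff l - (x 0 : ℤ) * G.coeff (l + 1)| ≤
          |G.coeff l| + N * |G.coeff (l + 1)| := by
        calc |G.coeff l - (x 0 : ℤ) * G.coeff (l + 1)| ≤ |G.coeff l| + |(x 0 : ℤ) * G.coeff (l + 1)| :=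
              abs_sub _ _
          _ = |G.coeff l| + |(x 0 : ℤ)| * |G.coeff (l + 1)| := by rw [abs_mul]
          _ ≤ _ := by gcongr
      refine h3.trans ?_
      by_cases hl : l + 1 ≤ n + 1
      · rw [if_pos hl]
        rw [if_pos (by omega)] at h1
        have e1 : n + 1 - (l + 1) = n - l := by omega
        rw [e1]
        have h4 : (N : ℤ) * |G.coeff (l + 1)| ≤ 2 ^ n * (N : ℤ) ^ (n - l) := by
          by_cases hl2 : l + 1 ≤ n
          · rw [if_pos hl2] at h2
            calc (N : ℤ) * |G.coeff (l + 1)| ≤ N * (2 ^ n * (N : ℤ) ^ (n - (l + 1))) := by gcongr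
              _ = 2 ^ n * (N : ℤ) ^ (n - (l + 1) + 1) := by rw [pow_succ]; ring
              _ = 2 ^ n * (N : ℤ) ^ (n - l) := by
                  congr 2
                  omega
          · rw [if_neg hl2] at h2
            have : |G.coeff (l + 1)| = 0 := le_antisymm h2 (abs_nonneg _)
            rw [this, mul_zero]
            positivity
        rw [pow_succ]
        linarith
      · rw [if_neg hl]
        rw [if_neg (by omega)] at h1 h2
        have e1 : |G.coeff l| = 0 := le_antisymm h1 (abs_nonneg _)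
        have e2 : |G.coeff (l + 1)| = 0 := le_antisymm h2 (abs_nonneg _)
        rw [e1, e2]
        simp

theorem main (hNW : Pool.Agent.W89.VP.NEWTStm) : POLStm := by
  intro k d N x y hN hx hy hpow
  obtain ⟨F, hF⟩ : ∃ F : ℤ[X], F = (∏ i, ((X : ℤ[X]) - C (x i : ℤ))) - ∏ i, ((X : ℤ[X]) - C (y i : ℤ)) :=
    ⟨_, rfl⟩
  have hdeg : F.degree < (d : WithBot ℕ) := by
    have h := hNW (k + d) k x y hpow
    rw [← hF] at h
    have e : k + d - k = d := by omega
    rwa [e] at h
  refine ⟨fun l => F.coeff (l : ℕ), ?_, fun t => ?_⟩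
  · unfold Pool.Agent.N541.LV.box
    rw [Fintype.mem_piFinset]
    intro l
    have h1 := coef_bd (k + d) N hN x (fun i => (hx i).2) (l : ℕ)
    have h2 := coef_bd (k + d) N hN y (fun i => (hy i).2) (l : ℕ)
    have hl : (l : ℕ) ≤ k + d := by
      have := l.2
      omega
    rw [if_pos hl] at h1 h2
    have h3 : |F.coeff (l : ℕ)| ≤ 2 ^ (k + d + 1) * (N : ℤ) ^ (k + d - (l : ℕ)) := by
      rw [hF, coeff_sub]
      refine (abs_sub _ _).trans ?_
      rw [pow_succ]
      linarith
    rw [Finset.mem_Icc]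
    push_cast
    exact abs_le.1 h3
  · have h4 : ev (fun l : Fin d => F.coeff (l : ℕ)) t = F.eval t := by
      by_cases h0 : F = 0
      · rw [h0]
        simp [ev]
      · rw [eval_eq_sum_range' ((natDegree_lt_iff_degree_lt h0).2 hdeg), ev,
          Finset.sum_range]
    rw [h4, hF, eval_sub, eval_prod, eval_prod]
    simp

end Pool.Agent.N374.LVPOL
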